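import Pool.Agent.X184.SS.Stm

set_option autoImplicit false

namespace Pool.Agent.X86.SS

open Finset Pool.Agent.X184.SS

theorem t_SPR : S_SPR := by
  intro n
  induction n with
  | zero =>
    intro F f hF _ _
    have hF' : F.card ≤ 1 := hF
    show (F.image f).card ≤ 1
    exact le_trans Finset.card_image_le hF'
  | succ n ih =>
    intro F f hF hf hle
    obtain ⟨k, G, h1, h2, h3, h4⟩ := hF
    have hsub : ∀ i, ∀ a ∈ G i, a ∈ F := by
      intro i a ha
      rw [h3]
      exact Finset.mem_biUnion.mpr ⟨i, Finset.mem_univ i, ha⟩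
    refine ⟨k, fun i => (G i).image f, ?_, ?_, ?_, ?_⟩
    · intro i
      refine ⟨(h1 i).1.image f, ih (G i) f (h1 i).2 ?_ ?_⟩
      · intro a ha b hb hab
        exact hf (Finset.mem_coe.mpr (hsub i a (Finset.mem_coe.mp ha)))
          (Finset.mem_coe.mpr (hsub i b (Finset.mem_coe.mp hb))) hab
      · intro a ha
        exact hle a (hsub i a ha)
    · intro i j hij a ha b hb
      obtain ⟨a', ha', rfl⟩ := Finset.mem_image.mp ha
      obtain ⟨b', hb', rfl⟩ := Finset.mem_image.mp hb
      exact hf (Finset.mem_coe.mpr (hsub i a' ha')) (Finset.mem_coe.mpr (hsub j b' hb'))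
        (h2 i j hij a' ha' b' hb')
    · ext b
      simp only [Finset.mem_image, Finset.mem_biUnion, Finset.mem_univ, true_and]
      constructor
      · rintro ⟨a, ha, rfl⟩
        rw [h3] at ha
        obtain ⟨i, _, hi⟩ := Finset.mem_biUnion.mp ha
        exact ⟨i, a, hi, rfl⟩
      · rintro ⟨i, a, ha, rfl⟩
        exact ⟨a, hsub i a ha, rfl⟩
    · intro b hb
      obtain ⟨a, ha, rfl⟩ := Finset.mem_image.mp hb
      exact le_trans (h4 a ha) (Nat.succ_le_succ (hle a ha))

end Pool.Agent.X86.SS
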