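import Pool.Agent.X86.SS.GH

set_option autoImplicit false

namespace Pool.Agent.X86.SS

open Finset Pool.Agent.X184.SS

theorem t_STEP : S_STEP := by
  intro hU hH Z n C hC hT hD i hi hG
  have hsub : Sch (i + 1) ⊆ Sch (n + 1) := fun G hG => sch_mono hU (i + 1) (n + 1) (by omega) G hG
  refine GEN hU hH Z n C hC hT hD (Sch (i + 1)) hsub ?_
  intro δ hδ N
  obtain ⟨z, hz, h0, h1, h2, h3⟩ := hG (δ / (N + 1)) (by positivity) N
  refine ⟨z, hz, h0, h1, h2, ?_⟩
  rintro F hF ⟨a, ha, haN⟩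
  obtain ⟨k, G, hG1, hG2, hG3, hG4⟩ := hF
  have hk : k ≤ N + 1 := by have := hG4 a ha; omega
  have hkR : (k : ℝ) ≤ N + 1 := by exact_mod_cast hk
  calc ∑ j ∈ F, |z j| ≤ ∑ l : Fin k, ∑ j ∈ G l, |z j| := by
        rw [hG3]
        rw [Finset.sum_biUnion]
        intro x _ y _ hxy
        rw [Function.onFun, Finset.disjoint_left]
        intro b hb hb'
        rcases lt_trichotomy x y with h | h | h
        · exact lt_irrefl _ (hG2 x y h b hb b hb')
        · exact hxy h
        · exact lt_irrefl _ (hG2 y x h b hb' b hb)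
    _ ≤ ∑ l : Fin k, δ / (N + 1) := Finset.sum_le_sum fun l _ => h3 (G l) (hG1 l).2
    _ = k * (δ / (N + 1)) := by simp
    _ ≤ (N + 1) * (δ / (N + 1)) := mul_le_mul_of_nonneg_right hkR (by positivity)
    _ = δ := by field_simp

theorem t_BASE : S_BASE := by
  intro hU hH Z n C hZ hC hT hD
  have hsub : Sch 0 ⊆ Sch (n + 1) := fun G hG => sch_mono hU 0 (n + 1) (by omega) G hG
  refine GEN hU hH Z n C hC hT hD (Sch 0) hsub ?_
  intro δ hδ N
  -- a nonzero member vanishing before N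
  obtain ⟨w, hw, hw0, a, hwa⟩ : ∃ w ∈ Z, (∀ j < N, w j = 0) ∧ ∃ a, w a ≠ 0 := by
    by_contra hcon
    push Not at hcon
    apply hZ
    let φ : Z →ₗ[ℝ] (Fin N → ℝ) :=
      { toFun := fun z i => z.1 i
        map_add' := fun x y => by ext i; simp
        map_smul' := fun c x => by ext i; simp }
    have hinj : Function.Injective φ := by
      rw [← LinearMap.ker_eq_bot, LinearMap.ker_eq_bot']
      intro x hx
      have h1 : ∀ j < N, x.1 j = 0 := fun j hj => congrFun hx ⟨j, hj⟩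
      have h2 := hcon x.1 x.2 h1
      ext j
      exact h2 j
    exact Module.Finite.of_injective φ hinj
  obtain ⟨K, hK⟩ := hT w hw 1 one_pos
  have hbd : ∀ F ∈ Sch (n + 1), ∑ j ∈ F, |w j| ≤ ∑ j ∈ range K, |w j| + 1 := by
    intro F hF
    have h5 : ∑ j ∈ F, |w j| = ∑ j ∈ F.filter (fun a => a < K), |w j| +
        ∑ j ∈ F.filter (fun a => ¬ a < K), |w j| := (Finset.sum_filter_add_sum_filter_not _ _ _).symm
    rw [h5]
    refine add_le_add ?_ ?_
    · refine Finset.sum_le_sum_of_subset_of_nonneg ?_ (fun _ _ _ => abs_nonneg _)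
      intro a ha
      exact Finset.mem_range.mpr (Finset.mem_filter.mp ha).2
    · refine hK _ (hH _ F _ hF (Finset.filter_subset _ _)) ?_
      intro a ha
      exact not_lt.mp (Finset.mem_filter.mp ha).2
  obtain ⟨c, hc, _, hc1, hc2⟩ := norm_lem n w _ hbd |w a| (abs_pos.mpr hwa)
    ⟨{a}, hsub (show ({a} : Finset ℕ).card ≤ 1 by simp), by simp⟩
  refine ⟨c • w, Z.smul_mem c hw, ?_, ?_, ?_, ?_⟩
  · intro j hj
    rw [Pi.smul_apply, hw0 j hj, smul_zero]
  · intro F hF
    simpa using hc1 F hF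
  · obtain ⟨F, hF, h⟩ := hc2
    exact ⟨F, hF, by simpa using h⟩
  · rintro F hF ⟨b, hb, hbN⟩
    have hF' : F.card ≤ 1 := hF
    have hFb : ∀ j ∈ F, j = b := fun j hj => Finset.card_le_one.mp hF' j hj b hb
    have : ∑ j ∈ F, |(c • w) j| = 0 := by
      refine Finset.sum_eq_zero fun j hj => ?_
      rw [hFb j hj, Pi.smul_apply, hw0 b hbN, smul_zero, abs_zero]
    rw [this]; exact hδ.le

end Pool.Agent.X86.SS
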