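import Pool.Agent.X184.SS.Stm

set_option autoImplicit false

namespace Pool.Agent.X86.SS

open Finset Pool.Agent.X184.SS

/-- normalisation -/
theorem norm_lem (n : ℕ) (w : ℕ → ℝ) (B : ℝ) (hB : ∀ F ∈ Sch (n + 1), ∑ j ∈ F, |w j| ≤ B)
    (L : ℝ) (hL : 0 < L) (hF : ∃ F ∈ Sch (n + 1), L ≤ ∑ j ∈ F, |w j|) :
    ∃ c : ℝ, 0 < c ∧ c ≤ 1 / L ∧ (∀ F ∈ Sch (n + 1), ∑ j ∈ F, |c * w j| ≤ 1) ∧
      ∃ F ∈ Sch (n + 1), 1 / 2 ≤ ∑ j ∈ F, |c * w j| := by
  set S : Set ℝ := {x | ∃ F ∈ Sch (n + 1), x = ∑ j ∈ F, |w j|} with hS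
  have hbdd : BddAbove S := ⟨B, by rintro x ⟨F, hF, rfl⟩; exact hB F hF⟩
  obtain ⟨F0, hF0, hLF⟩ := hF
  have hne : S.Nonempty := ⟨_, F0, hF0, rfl⟩
  have hM : L ≤ sSup S := le_trans hLF (le_csSup hbdd ⟨F0, hF0, rfl⟩)
  have hMpos : 0 < sSup S := lt_of_lt_of_le hL hM
  have hsum : ∀ F : Finset ℕ, ∑ j ∈ F, |(sSup S)⁻¹ * w j| = (sSup S)⁻¹ * ∑ j ∈ F, |w j| := by
    intro F
    rw [Finset.mul_sum]
    refine Finset.sum_congr rfl fun j _ => ?_
    rw [abs_mul, abs_of_pos (inv_pos.mpr hMpos)]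
  refine ⟨(sSup S)⁻¹, inv_pos.mpr hMpos, ?_, ?_, ?_⟩
  · rw [one_div]
    exact inv_anti₀ hL hM
  · intro F hF
    rw [hsum]
    have h1 : ∑ j ∈ F, |w j| ≤ sSup S := le_csSup hbdd ⟨F, hF, rfl⟩
    calc (sSup S)⁻¹ * ∑ j ∈ F, |w j| ≤ (sSup S)⁻¹ * sSup S :=
          mul_le_mul_of_nonneg_left h1 (inv_pos.mpr hMpos).le
      _ = 1 := inv_mul_cancel₀ hMpos.ne'
  · obtain ⟨x, ⟨F, hF, rfl⟩, hx⟩ := exists_lt_of_lt_csSup hne (half_lt_self hMpos)
    refine ⟨F, hF, ?_⟩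
    rw [hsum]
    calc (1 / 2 : ℝ) = (sSup S)⁻¹ * (sSup S / 2) := by field_simp
      _ ≤ (sSup S)⁻¹ * ∑ j ∈ F, |w j| :=
          mul_le_mul_of_nonneg_left hx.le (inv_pos.mpr hMpos).le

theorem sch_succ (hU : S_UNI) (n : ℕ) (G : Finset ℕ) (hG : G ∈ Sch n) : G ∈ Sch (n + 1) := by
  have h := hU n 1 (fun _ => G) (fun _ => hG) (fun i j hij => by
    exfalso; have := Subsingleton.elim i j; subst this; exact lt_irrefl _ hij)
    (fun _ a _ => by omega)
  have h2 : (univ : Finset (Fin 1)).biUnion (fun _ => G) = G := by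
    ext a; simp
  rwa [h2] at h

theorem sch_mono (hU : S_UNI) (m n : ℕ) (hmn : m ≤ n) (G : Finset ℕ) (hG : G ∈ Sch m) :
    G ∈ Sch n := by
  induction n, hmn using Nat.le_induction with
  | base => exact hG
  | succ k _ ih => exact sch_succ hU k G ih

theorem GEN (hU : S_UNI) (hH : ∀ (n : ℕ) (F G : Finset ℕ), F ∈ Sch n → G ⊆ F → G ∈ Sch n)
    (Z : Submodule ℝ (ℕ → ℝ)) (n : ℕ) (C : ℝ) (hC : 0 < C) (hT : Tails Z n) (hD : Dom Z n C)
    (FF : Set (Finset ℕ)) (hFF : FF ⊆ Sch (n + 1))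
    (hsup : ∀ δ : ℝ, 0 < δ → ∀ N : ℕ, ∃ z ∈ Z, (∀ j < N, z j = 0) ∧
      (∀ F ∈ Sch (n + 1), ∑ j ∈ F, |z j| ≤ 1) ∧ (∃ F ∈ Sch (n + 1), 1 / 2 ≤ ∑ j ∈ F, |z j|) ∧
      ∀ F ∈ FF, (∃ a ∈ F, a < N) → ∑ j ∈ F, |z j| ≤ δ) :
    ∀ ε : ℝ, 0 < ε → ∀ N : ℕ, ∃ z ∈ Z, (∀ j < N, z j = 0) ∧
      (∀ F ∈ Sch (n + 1), ∑ j ∈ F, |z j| ≤ 1) ∧ (∃ F ∈ Sch (n + 1), 1 / 2 ≤ ∑ j ∈ F, |z j|) ∧
      ∀ F ∈ FF, ∑ j ∈ F, |z j| ≤ ε := by
  intro ε hε N
  obtain ⟨p0, hp0⟩ := exists_nat_gt (3 * C * (3 / ε + 1))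
  obtain ⟨p, hp, hpC⟩ : ∃ p : ℕ, 1 ≤ p ∧ 3 * C * (3 / ε + 1) ≤ (p : ℝ) :=
    ⟨p0 + 1, by omega, by push_cast; linarith⟩
  have hpR : (0 : ℝ) < p := by exact_mod_cast hp
  have hp1 : (1 : ℝ) ≤ p := by exact_mod_cast hp
  set η : ℝ := 1 / ((p : ℝ) * (p + 1)) with hη
  have hηpos : 0 < η := by rw [hη]; positivity
  have hηp : η ≤ 1 / p := by
    rw [hη]
    apply one_div_le_one_div_of_le hpR
    nlinarith
  have hstep : ∀ M : ℕ, ∃ (z : ℕ → ℝ) (M' : ℕ), z ∈ Z ∧ M < M' ∧ (∀ j < M, z j = 0) ∧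
      (∀ F ∈ Sch (n + 1), ∑ j ∈ F, |z j| ≤ 1) ∧ (∃ F ∈ Sch (n + 1), 1 / 2 ≤ ∑ j ∈ F, |z j|) ∧
      (∀ F ∈ FF, (∃ a ∈ F, a < M) → ∑ j ∈ F, |z j| ≤ 1 / p) ∧
      (∀ F ∈ Sch (n + 1), (∀ a ∈ F, M' ≤ a) → ∑ j ∈ F, |z j| ≤ η) := by
    intro M
    obtain ⟨z, hz, h0, h1, h2, h3⟩ := hsup (1 / p) (by positivity) M
    obtain ⟨K, hK⟩ := hT z hz η hηpos
    refine ⟨z, max K (M + 1), hz, ?_, h0, h1, h2, h3, ?_⟩
    · exact lt_of_lt_of_le (Nat.lt_succ_self M) (le_max_right _ _)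
    · intro F hF ha
      exact hK F hF fun a haF => le_trans (le_max_left _ _) (ha a haF)
  choose s t hsZ hst hs0 hs1 hs2 hs3 hs4 using hstep
  set Nn : ℕ → ℕ := fun j => t^[j] (max N p) with hNn
  have hN0 : Nn 0 = max N p := rfl
  have hNs : ∀ j, Nn (j + 1) = t (Nn j) := fun j => Function.iterate_succ_apply' t j _
  have hNm : StrictMono Nn := strictMono_nat_of_lt_succ fun j => by
    rw [hNs]; exact hst _
  set z : ℕ → ℕ → ℝ := fun j => s (Nn j) with hz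
  have hzt : ∀ i, ∀ F ∈ Sch (n + 1), (∀ a ∈ F, Nn (i + 1) ≤ a) → ∑ j ∈ F, |z i j| ≤ η := by
    intro i F hF ha
    refine hs4 (Nn i) F hF ?_
    rw [← hNs]; exact ha
  set w : ℕ → ℝ := ∑ i ∈ range p, z i with hw
  have hwj : ∀ j, w j = ∑ i ∈ range p, z i j := by
    intro j; rw [hw, Finset.sum_apply]
  have hwle : ∀ F : Finset ℕ, ∑ j ∈ F, |w j| ≤ ∑ i ∈ range p, ∑ j ∈ F, |z i j| := by
    intro F
    rw [Finset.sum_comm]
    refine Finset.sum_le_sum fun j _ => ?_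
    rw [hwj]
    exact Finset.abs_sum_le_sum_abs _ _
  -- upper bound for members of FF
  have hup : ∀ F ∈ FF, ∑ j ∈ F, |w j| ≤ 3 := by
    intro F hF
    by_cases hne : F.Nonempty
    swap
    · rw [Finset.not_nonempty_iff_eq_empty] at hne
      subst hne; simp
    set a0 := F.min' hne with ha0
    have ha0F : a0 ∈ F := F.min'_mem hne
    have hall : ∀ a ∈ F, a0 ≤ a := fun a ha => F.min'_le a ha
    have hi : ∀ i ∈ range p, ∑ j ∈ F, |z i j| ≤
        1 / (p : ℝ) + (if Nn i ≤ a0 ∧ a0 < Nn (i + 1) then (1 : ℝ) else 0) := by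
      intro i _
      have hpp : (0 : ℝ) < 1 / p := by positivity
      by_cases h1 : a0 < Nn i
      · have := hs3 (Nn i) F hF ⟨a0, ha0F, h1⟩
        have h2 : ¬ (Nn i ≤ a0 ∧ a0 < Nn (i + 1)) := fun h => by omega
        rw [if_neg h2, add_zero]; exact this
      · by_cases h3 : a0 < Nn (i + 1)
        · rw [if_pos ⟨by omega, h3⟩]
          have := hs1 (Nn i) F (hFF hF)
          have h4 : ∑ j ∈ F, |z i j| ≤ 1 := this
          linarith
        · have h2 : ¬ (Nn i ≤ a0 ∧ a0 < Nn (i + 1)) := fun h => by omega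
          rw [if_neg h2, add_zero]
          refine le_trans (hzt i F (hFF hF) fun a ha => ?_) hηp
          have := hall a ha
          omega
    have hcard : (((range p).filter (fun i => Nn i ≤ a0 ∧ a0 < Nn (i + 1))).card : ℝ) ≤ 1 := by
      have : ((range p).filter (fun i => Nn i ≤ a0 ∧ a0 < Nn (i + 1))).card ≤ 1 := by
        rw [Finset.card_le_one]
        intro i hi i' hi'
        rw [Finset.mem_filter] at hi hi'
        rcases lt_trichotomy i i' with h | h | h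
        · have := hNm.monotone (show i + 1 ≤ i' from h)
          omega
        · exact h
        · have := hNm.monotone (show i' + 1 ≤ i from h)
          omega
      exact_mod_cast this
    calc ∑ j ∈ F, |w j| ≤ ∑ i ∈ range p, ∑ j ∈ F, |z i j| := hwle F
      _ ≤ ∑ i ∈ range p, (1 / (p : ℝ) + (if Nn i ≤ a0 ∧ a0 < Nn (i + 1) then (1 : ℝ) else 0)) :=
          Finset.sum_le_sum hi
      _ = 1 + ((range p).filter (fun i => Nn i ≤ a0 ∧ a0 < Nn (i + 1))).card := by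
          rw [Finset.sum_add_distrib, Finset.sum_const, card_range, nsmul_eq_mul,
            Finset.sum_ite, Finset.sum_const_zero, add_zero, Finset.sum_const, nsmul_eq_mul,
            mul_one]
          congr 1
          field_simp
      _ ≤ 3 := by linarith
  -- bounded
  have hbd : ∀ F ∈ Sch (n + 1), ∑ j ∈ F, |w j| ≤ p := by
    intro F hF
    calc ∑ j ∈ F, |w j| ≤ ∑ i ∈ range p, ∑ j ∈ F, |z i j| := hwle F
      _ ≤ ∑ i ∈ range p, (1 : ℝ) := Finset.sum_le_sum fun i _ => hs1 (Nn i) F hF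
      _ = p := by simp
  -- lower bound
  have hlow : ∀ i : ℕ, ∃ G ∈ Sch n, (∀ a ∈ G, Nn i ≤ a ∧ a < Nn (i + 1)) ∧
      1 / (3 * C) - η ≤ ∑ j ∈ G, |z i j| := by
    intro i
    have h1 : ∃ G ∈ Sch n, 1 / (3 * C) < ∑ j ∈ G, |z i j| := by
      by_contra hcon
      push Not at hcon
      obtain ⟨F, hF, hF2⟩ := hs2 (Nn i)
      have h2 := hD (z i) (hsZ _) (1 / (3 * C)) hcon F hF
      have h3 : C * (1 / (3 * C)) = 1 / 3 := by field_simp
      have h4 : (1 : ℝ) / 2 ≤ ∑ j ∈ F, |z i j| := hF2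
      linarith
    obtain ⟨G, hG, hG2⟩ := h1
    refine ⟨G.filter (fun a => Nn i ≤ a ∧ a < Nn (i + 1)), hH n G _ hG (Finset.filter_subset _ _),
      ?_, ?_⟩
    · intro a ha
      exact (Finset.mem_filter.mp ha).2
    · have h5 : ∑ j ∈ G, |z i j| ≤ ∑ j ∈ G.filter (fun a => Nn i ≤ a ∧ a < Nn (i + 1)), |z i j| +
          ∑ j ∈ G.filter (fun a => Nn (i + 1) ≤ a), |z i j| := by
        rw [Finset.sum_filter, Finset.sum_filter, ← Finset.sum_add_distrib]
        refine Finset.sum_le_sum fun j _ => ?_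
        by_cases hj : j < Nn i
        · have : z i j = 0 := hs0 (Nn i) j hj
          rw [this]; simp
        · by_cases hj2 : j < Nn (i + 1)
          · rw [if_pos ⟨by omega, hj2⟩]
            split_ifs <;> simp
          · have h6 : ¬ (Nn i ≤ j ∧ j < Nn (i + 1)) := fun h => by omega
            rw [if_neg h6, if_pos (by omega)]; simp
      have h7 : ∑ j ∈ G.filter (fun a => Nn (i + 1) ≤ a), |z i j| ≤ η := by
        refine hzt i _ (hH _ G _ (sch_succ hU n G hG) (Finset.filter_subset _ _)) ?_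
        intro a ha
        exact (Finset.mem_filter.mp ha).2
      linarith
  choose G hGn hGr hGs using hlow
  have hUS : (univ : Finset (Fin p)).biUnion (fun i => G i) ∈ Sch (n + 1) := by
    refine hU n p (fun i => G i) (fun i => hGn i) ?_ ?_
    · intro i j hij a ha b hb
      have h1 := (hGr i a ha).2
      have h2 := (hGr j b hb).1
      have h3 := hNm.monotone (show (i : ℕ) + 1 ≤ (j : ℕ) from hij)
      omega
    · intro i a ha
      have h1 := (hGr i a ha).1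
      have h2 := hNm.monotone (Nat.zero_le (i : ℕ))
      rw [hN0] at h2
      have h3 := le_max_right N p
      omega
  have hdisj : (↑(univ : Finset (Fin p)) : Set (Fin p)).PairwiseDisjoint (fun i => G (i : ℕ)) := by
    intro i _ j _ hij
    rw [Function.onFun, Finset.disjoint_left]
    intro a ha hb
    have h1 := hGr i a ha
    have h2 := hGr j a hb
    rcases lt_trichotomy (i : ℕ) (j : ℕ) with h | h | h
    · have h3 := hNm.monotone (show (i : ℕ) + 1 ≤ (j : ℕ) from h)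
      omega
    · exact hij (Fin.ext h)
    · have h3 := hNm.monotone (show (j : ℕ) + 1 ≤ (i : ℕ) from h)
      omega
  have hGi : ∀ i : Fin p, 1 / (3 * C) - 1 / p ≤ ∑ j ∈ G i, |w j| := by
    intro i
    have h1 : ∀ j, |z i j| - ∑ i' ∈ (range p).erase i, |z i' j| ≤ |w j| := by
      intro j
      have hmem : (i : ℕ) ∈ range p := Finset.mem_range.mpr i.2
      rw [hwj, ← Finset.add_sum_erase (range p) (fun i' => z i' j) hmem]
      have h2 : |∑ i' ∈ (range p).erase i, z i' j| ≤ ∑ i' ∈ (range p).erase i, |z i' j| :=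
        Finset.abs_sum_le_sum_abs _ _
      have h3 := abs_sub_abs_le_abs_sub (z i j) (-(∑ i' ∈ (range p).erase i, z i' j))
      rw [abs_neg, sub_neg_eq_add] at h3
      linarith
    have h2 : ∑ j ∈ G i, ∑ i' ∈ (range p).erase i, |z i' j| ≤ p * η := by
      rw [Finset.sum_comm]
      calc ∑ i' ∈ (range p).erase (i : ℕ), ∑ j ∈ G i, |z i' j|
          ≤ ∑ i' ∈ (range p).erase (i : ℕ), η := by
            refine Finset.sum_le_sum fun i' hi' => ?_
            have hne : i' ≠ (i : ℕ) := (Finset.mem_erase.mp hi').1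
            rcases lt_or_gt_of_ne hne with h | h
            · refine hzt i' _ (sch_succ hU n _ (hGn i)) ?_
              intro a ha
              have h4 := (hGr i a ha).1
              have h3 := hNm.monotone (show i' + 1 ≤ (i : ℕ) from h)
              omega
            · have : ∑ j ∈ G i, |z i' j| = 0 := by
                refine Finset.sum_eq_zero fun j hj => ?_
                have h4 := (hGr i j hj).2
                have h3 := hNm.monotone (show (i : ℕ) + 1 ≤ i' from h)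
                have h5 : z i' j = 0 := hs0 (Nn i') j (by omega)
                rw [h5, abs_zero]
              rw [this]; exact hηpos.le
        _ ≤ ∑ i' ∈ range p, η :=
            Finset.sum_le_sum_of_subset_of_nonneg (Finset.erase_subset _ _)
              (fun _ _ _ => hηpos.le)
        _ = p * η := by simp
    have h3 : ∑ j ∈ G i, (|z i j| - ∑ i' ∈ (range p).erase i, |z i' j|) ≤ ∑ j ∈ G i, |w j| :=
      Finset.sum_le_sum fun j _ => h1 j
    rw [Finset.sum_sub_distrib] at h3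
    have h4 := hGs i
    have h5 : (p + 1) * η = 1 / p := by rw [hη]; field_simp
    have h6 : (p + 1) * η = p * η + η := by ring
    linarith
  have hLow : (p : ℝ) / (3 * C) - 1 ≤ ∑ j ∈ (univ : Finset (Fin p)).biUnion (fun i => G i), |w j| := by
    rw [Finset.sum_biUnion hdisj]
    calc (p : ℝ) / (3 * C) - 1 = ∑ i : Fin p, (1 / (3 * C) - 1 / (p : ℝ)) := by
          rw [Finset.sum_const, card_univ, Fintype.card_fin, nsmul_eq_mul]
          field_simp
      _ ≤ _ := Finset.sum_le_sum fun i _ => hGi i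
  have hL3 : 3 / ε ≤ (p : ℝ) / (3 * C) - 1 := by
    have h1 : 3 / ε + 1 ≤ (p : ℝ) / (3 * C) := by
      rw [le_div_iff₀ (by positivity)]
      linarith
    linarith
  obtain ⟨c, hc, hcL, hc1, hc2⟩ := norm_lem n w p hbd (3 / ε) (by positivity)
    ⟨_, hUS, le_trans hL3 hLow⟩
  refine ⟨c • w, Z.smul_mem c (Z.sum_mem fun i _ => hsZ _), ?_, ?_, ?_, ?_⟩
  · intro j hj
    rw [Pi.smul_apply, hwj, Finset.sum_eq_zero, smul_zero]
    intro i _
    refine hs0 (Nn i) j ?_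
    have h2 := hNm.monotone (Nat.zero_le i)
    rw [hN0] at h2
    have h3 := le_max_left N p
    omega
  · intro F hF
    simpa using hc1 F hF
  · obtain ⟨F, hF, h⟩ := hc2
    exact ⟨F, hF, by simpa using h⟩
  · intro F hF
    have h1 : ∑ j ∈ F, |(c • w) j| = c * ∑ j ∈ F, |w j| := by
      rw [Finset.mul_sum]
      refine Finset.sum_congr rfl fun j _ => ?_
      rw [Pi.smul_apply, smul_eq_mul, abs_mul, abs_of_pos hc]
    rw [h1]
    calc c * ∑ j ∈ F, |w j| ≤ (1 / (3 / ε)) * 3 :=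
          mul_le_mul hcL (hup F hF) (Finset.sum_nonneg fun _ _ => abs_nonneg _) (by positivity)
      _ = ε := by field_simp

end Pool.Agent.X86.SS
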